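import Pool.Agent.Helper64.CT.Stmts

set_option autoImplicit false

namespace Pool.Agent.Helper64.CT

theorem st_ALS : ST_ALS := by
  intro V G a c y ha hal
  obtain ⟨hy, hnc, hatt⟩ := hal
  -- every vertex of the component is far from a
  have h1 : ∀ u, Comp G c y u → u ∈ Far G a := by
    intro u hu
    refine ⟨fun e => ?_, fun e => ?_⟩
    · subst e; exact hnc hu.symm
    · exact hnc ((Comp.adj ha hu.right e).trans hu.symm)
  have h2 : ∀ z, Comp G c y z → Comp G a y z := by
    intro z hz
    exact Comp.ind hz (fun w => Comp G a y w) (Comp.refl (h1 y (Comp.refl hy)))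
      (fun z w hzz hP hw hadj => hP.step (h1 w (hzz.step hw hadj)) hadj)
  have h3 : ∀ z, Comp G a y z → Comp G c y z := by
    intro z hz
    refine Comp.ind hz (fun w => Comp G c y w) (Comp.refl hy) ?_
    intro z w hzz hP hw hadj
    refine hP.step ⟨fun e => ?_, fun e => ?_⟩ hadj
    · subst e; exact hP.right.2 hadj.symm
    · exact hw.2 (hatt w ⟨e, z, hP, hadj.symm⟩)
  have h4 : Att G a y = Att G c y := by
    ext n
    constructor
    · rintro ⟨h, u, hu, hadj⟩
      have hu' := h3 u hu
      have hnc' : n ≠ c := fun e => by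
        subst e
        exact ha.2 h.symm
      by_cases hcn : G.Adj c n
      · exact ⟨hcn, u, hu', hadj⟩
      · exact absurd h (h1 n (hu'.step ⟨hnc', hcn⟩ hadj.symm)).2
    · rintro hn
      obtain ⟨h, u, hu, hadj⟩ := hn
      exact ⟨hatt n ⟨h, u, hu, hadj⟩, u, h2 u hu, hadj⟩
  refine ⟨⟨h1 y (Comp.refl hy), fun h => ?_, fun n hn => ?_⟩, fun z => ⟨h3 z, h2 z⟩, h4⟩
  · exact (h3 c h.symm).right.1 rfl
  · rw [h4] at hn
    exact hn.1

end Pool.Agent.Helper64.CT
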