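import Pool.Agent.Helper64.CT.Stmts

set_option autoImplicit false

namespace Pool.Agent.Helper64.CT

open Pool.Agent.Helper64.HG (Ovl Model Circ IC HellyCircle)

theorem st_GCII (h1 : ST_CFA) (h2 : Pool.Agent.Helper64.HG.ST_ROT) : ST_GCII := by
  classical
  intro V _ G hG x
  obtain ⟨l, r, hM, hx⟩ := h2 V G x hG
  have hfar : ∀ u, u ∈ Far G x → (r u < r x ∨ r x < l u) := by
    intro u hu
    by_contra hc
    push Not at hc
    obtain ⟨h3, h4⟩ := hc
    have h5 := hx u hu.1
    have h6 : r x < r u := lt_of_le_of_ne h3 (fun e => hu.1 (hM.injr e).symm)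
    have h7 : l u < r x := lt_of_le_of_ne h4 (hM.ne u x)
    exact hu.2 ((hM.adj x u).2 (Or.inl ⟨h5, h7, h6⟩))
  have hnb : ∀ n, G.Adj x n → l x < l n ∧ l n < r x ∧ r x < r n := by
    intro n h
    rcases (hM.adj x n).1 h with h3 | h3
    · exact h3
    · exact absurd h3.1 (not_lt.2 (hx n (G.ne_of_adj h).symm).le)
  have hstep : ∀ u v, u ∈ Far G x → v ∈ Far G x → G.Adj u v → (r u < r x ↔ r v < r x) := by
    intro u v hu hv ha
    have h3 := (hM.adj u v).1 ha
    have h4 := hfar u hu
    have h5 := hfar v hv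
    have h6 := hM.lt u
    have h7 := hM.lt v
    rcases h4 with h4 | h4 <;> rcases h5 with h5 | h5
    · exact ⟨fun _ => h5, fun _ => h4⟩
    · exfalso
      rcases h3 with ⟨a, b, c⟩ | ⟨a, b, c⟩ <;> linarith
    · exfalso
      rcases h3 with ⟨a, b, c⟩ | ⟨a, b, c⟩ <;> linarith
    · constructor
      · intro h; linarith
      · intro h; linarith
  have hcomp : ∀ y z, Comp G x y z → (r y < r x ↔ r z < r x) := by
    intro y z h
    exact Comp.ind h (fun w => (r y < r x ↔ r w < r x)) Iff.rfl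
      (fun z w hz hP hw ha => hP.trans (hstep z w hz.right hw ha))
  refine ⟨fun u => decide (r u < r x), fun y z h => ?_, fun y z hc hs => ?_⟩
  · exact decide_eq_decide.2 (hcomp y z h)
  · have hs' : (r y < r x ↔ r z < r x) := decide_eq_decide.1 hs
    obtain ⟨hy, hz⟩ := hc.far
    by_cases hyi : r y < r x
    · have hzi := hs'.1 hyi
      refine h1 V G x {u | u ∈ Far G x ∧ r u < r x} l r l (fun u _ => hM.lt u)
        (fun u _ v _ huv => ⟨fun e => huv (hM.injl e), fun e => huv (hM.injr e)⟩)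
        (fun u _ v _ => hM.ne u v) (fun u _ v _ => hM.adj u v) ?_ y z
        (fun u hu => ⟨hu.right, (hcomp y u hu).1 hyi⟩)
        (fun u hu => ⟨hu.right, (hcomp z u hu).1 hzi⟩) hc
      intro n hn u hu
      obtain ⟨a1, a2, a3⟩ := hnb n hn
      have hu2 : r u < r x := hu.2
      rw [hM.adj n u]
      constructor
      · rintro (⟨b1, b2, b3⟩ | ⟨b1, b2, b3⟩)
        · exfalso; linarith
        · exact ⟨b1, b2⟩
      · rintro ⟨b1, b2⟩
        exact Or.inr ⟨b1, b2, by linarith⟩
    · have hzi : ¬ r z < r x := fun h => hyi (hs'.2 h)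
      refine h1 V G x {u | u ∈ Far G x ∧ r x < l u} l r r (fun u _ => hM.lt u)
        (fun u _ v _ huv => ⟨fun e => huv (hM.injl e), fun e => huv (hM.injr e)⟩)
        (fun u _ v _ => hM.ne u v) (fun u _ v _ => hM.adj u v) ?_ y z
        (fun u hu => ⟨hu.right, (hfar u hu.right).resolve_left
          (fun h => hyi ((hcomp y u hu).2 h))⟩)
        (fun u hu => ⟨hu.right, (hfar u hu.right).resolve_left
          (fun h => hzi ((hcomp z u hu).2 h))⟩) hc
      intro n hn u hu
      obtain ⟨a1, a2, a3⟩ := hnb n hn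
      have hu2 : r x < l u := hu.2
      rw [hM.adj n u]
      constructor
      · rintro (⟨b1, b2, b3⟩ | ⟨b1, b2, b3⟩)
        · exact ⟨b2, b3⟩
        · exfalso; linarith
      · rintro ⟨b1, b2⟩
        exact Or.inl ⟨by linarith, b1, b2⟩

end Pool.Agent.Helper64.CT
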